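import Mathlib
import Pool.Agent.H97.CL.Peb
import Pool.Agent.H97.CL.PebFin

/-!
# Counting logic with boundedly many variables does not approximate Clique within any ratio

`CEquiv t G H`: Duplicator wins the bijective pebble game with `t` pairs of pebbles (Hella), i.e. `G` and `H`
satisfy the same sentences of `C^t`.  For all `h ≥ 2`, `k` and all large `n` there are `C^{h-1}`-equivalent graphs
on `n` vertices, one without a clique of size `h`, the other with a clique of size `k`; `C^h` separates them.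
-/

set_option autoImplicit false

namespace Pool.Agent.Results.MP_1fcf49_lc.CountingLogic

open Pool.Agent.H97.CL (CEquiv)

theorem result :
    (∀ h k : ℕ, 2 ≤ h → ∃ n₀ : ℕ, ∀ n : ℕ, n₀ ≤ n → ∃ G H : SimpleGraph (Fin n),
      G.CliqueFree h ∧ (∃ S : Finset (Fin n), H.IsNClique k S) ∧ CEquiv (h - 1) G H) ∧
    (∀ (h n : ℕ) (G H : SimpleGraph (Fin n)), G.CliqueFree h →
      (∃ S : Finset (Fin n), H.IsNClique h S) → ¬ CEquiv h G H) ∧
    (∀ ρ : ℕ → ℝ, (∀ k, 1 ≤ ρ k) → (∀ B : ℝ, ∃ k : ℕ, B ≤ k / ρ k) → ∀ t : ℕ,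
      ∃ k n₀ : ℕ, ∀ n : ℕ, n₀ ≤ n → ∃ G H : SimpleGraph (Fin n),
        (∀ T : Finset (Fin n), G.IsClique T → (T.card : ℝ) < k / ρ k) ∧
        (∃ S : Finset (Fin n), H.IsNClique k S) ∧ CEquiv t G H) :=
  ⟨fun h k h2 => Pool.Agent.H97.CL.peb_fin h k h2,
    fun h _ G H hG ⟨S, hS⟩ => Pool.Agent.H97.CL.CEquiv_sharp h G H hG S hS,
    fun ρ hρ hub t => Pool.Agent.H97.CL.peb_ratio ρ hρ hub t⟩

end Pool.Agent.Results.MP_1fcf49_lc.CountingLogic
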