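import Mathlib
import Pool.Agent.H97.CL.Form
import Pool.Agent.H97.CL.FinLp
import Pool.Agent.H97.CL.Upper

/-!
# Linear programming formulations of gap Clique have exponent exactly `h`

A linear programming formulation with margin `δ` of the problem of separating the graphs on `n` vertices with a
clique of size `k` from those without a clique of size `h ≤ k` needs `n^{h - ε}` inequalities for every
`k ≥ h ≥ 3` (`n` large), and `(n choose h)` inequalities suffice (margin `k (k-1)/(h (h-1))`).
-/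

set_option autoImplicit false

namespace Pool.Agent.Results.MP_1fcf49_lc.LinearPrograms

open Pool.Agent.H97.CL (LPForm)

theorem result (h k : ℕ) (h3 : 3 ≤ h) (hk : h ≤ k) :
    (∀ δ ε : ℝ, 0 < δ → 0 < ε → ∃ n₀ : ℕ, ∀ n : ℕ, n₀ ≤ n → ∀ R : ℕ,
      LPForm n k h δ R → (n : ℝ) ^ ((h : ℝ) - ε) ≤ R) ∧
    (∀ n : ℕ, LPForm n k h ((k : ℝ) * (k - 1) / (h * (h - 1))) (n.choose h)) :=
  ⟨fun δ ε hδ hε => Pool.Agent.H97.CL.lp_lower h k h3 hk δ ε hδ hε,
    fun n => Pool.Agent.H97.CL.lp_upper h k n (by omega) hk⟩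

end Pool.Agent.Results.MP_1fcf49_lc.LinearPrograms
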