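import Mathlib
import Pool.Agent.H97.CL.Form
import Pool.Agent.H97.CM.Fin
import Pool.Agent.H97.CL.Ratio

/-!
# No FPT-size semidefinite formulation approximates Clique within any ratio

A semidefinite formulation with margin `δ` of the problem of separating the graphs on `n` vertices with a clique
of size `k` from those without a clique of size `h ≤ k` has size at least `n^{⌈h/2⌉ - ε}` (`n` large;
`⌈h/2⌉` is the natural number `(h + 1) / 2`).
Consequently, for every ratio `ρ ≥ 1` with `k / ρ k` unbounded there are no semidefinite formulations of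
`k`-Clique with ratio `ρ k` of size `f k * n ^ c`.
-/

set_option autoImplicit false

namespace Pool.Agent.Results.MP_1fcf49_lc.SemidefinitePrograms

open Pool.Agent.H97.CL (SDPForm SDPRatio)

theorem result :
    (∀ h k : ℕ, 3 ≤ h → h ≤ k → ∀ δ ε : ℝ, 0 < δ → 0 < ε → ∃ n₀ : ℕ, ∀ n : ℕ, n₀ ≤ n → ∀ R : ℕ,
      SDPForm n k h δ R → (n : ℝ) ^ ((((h + 1) / 2 : ℕ) : ℝ) - ε) ≤ R) ∧
    (∀ ρ : ℕ → ℝ, (∀ k, 1 ≤ ρ k) → (∀ B : ℝ, ∃ k : ℕ, B ≤ k / ρ k) → ∀ (f : ℕ → ℕ) (c : ℕ),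
      ¬ ∀ k n : ℕ, ∃ R : ℕ, R ≤ f k * n ^ c ∧ SDPRatio n k (ρ k) R) :=
  ⟨fun h k h3 hk δ ε hδ hε => Pool.Agent.H97.CM.sdp_half h k h3 hk δ ε hδ hε,
    fun ρ hρ hub f c => Pool.Agent.H97.CL.no_fpt ρ hρ hub f c⟩

end Pool.Agent.Results.MP_1fcf49_lc.SemidefinitePrograms
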