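import Mathlib
import Pool.Agent.H84.SP.Main2

/-!
# Monotone span programs over any field do not approximate Clique within any ratio

`SpanProgram F n s`: a monotone span program over the field `F` with `s` rows, each labelled
with a pair of vertices; it accepts the graph `G` on `Fin n` if the target is in the span of the
rows labelled with edges of `G`.  For `3 ≤ h ≤ k` every such program which accepts all graphs
with a `k`-clique and rejects all `(h-1)`-colourable graphs has size at least a constant times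
`n ^ (1 + h / 2)` in characteristic `0` or at least `h`, `n ^ ((⌊h / 2⌋ + 3) / 2)` in
characteristic other than two and `n ^ ((⌊h / 2⌋ + 5) / 3)` over every field.
-/

set_option autoImplicit false

universe u

namespace Pool.Agent.Results.MP_1fcf49_lc.SpanPrograms

open Pool.Agent.H84.SP (SpanProgram)

theorem result :
    (∀ k h l : ℕ, 3 ≤ h → h ≤ k → h ≤ 2 ^ l + 1 → ∃ C : ℕ,
      ∀ (F : Type u) [Field F] (n s : ℕ) (P : SpanProgram F n s),
      (ringChar F = 0 ∨ h ≤ ringChar F) → k ≤ n →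
      (∀ G : SimpleGraph (Fin n), ¬ G.CliqueFree k → P.Accepts G) →
      (∀ G : SimpleGraph (Fin n), G.Colorable (h - 1) → ¬ P.Accepts G) →
      n ^ (2 * (2 ^ l - 1) + 2 ^ (l - 1) * (h - 2)) ≤ C * s ^ (2 ^ l - 1)) ∧
    (∀ k h : ℕ, 3 ≤ h → h ≤ k → ∃ C : ℕ,
      ∀ (F : Type u) [Field F] (n s : ℕ) (P : SpanProgram F n s),
      ringChar F ≠ 2 → k ≤ n →
      (∀ G : SimpleGraph (Fin n), ¬ G.CliqueFree k → P.Accepts G) →
      (∀ G : SimpleGraph (Fin n), G.Colorable (h - 1) → ¬ P.Accepts G) →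
      n ^ (h / 2 + 3) ≤ C * s ^ 2) ∧
    (∀ k h : ℕ, 3 ≤ h → h ≤ k → ∃ C : ℕ,
      ∀ (F : Type u) [Field F] (n s : ℕ) (P : SpanProgram F n s), k ≤ n →
      (∀ G : SimpleGraph (Fin n), ¬ G.CliqueFree k → P.Accepts G) →
      (∀ G : SimpleGraph (Fin n), G.Colorable (h - 1) → ¬ P.Accepts G) →
      n ^ (h / 2 + 5) ≤ C * s ^ 3) ∧
    (∀ ρ : ℕ → ℝ, (∀ k, 1 ≤ ρ k) → (∀ B : ℝ, ∃ k : ℕ, B < k / ρ k) →
      ∀ (f : ℕ → ℕ) (c : ℕ), ∃ k n₀ : ℕ, ∀ n : ℕ, n₀ ≤ n →
      ∀ (F : Type u) [Field F] (s : ℕ) (P : SpanProgram F n s), s ≤ f k * n ^ c →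
      ¬ ((∀ G : SimpleGraph (Fin n), ¬ G.CliqueFree k → P.Accepts G) ∧
        (∀ G : SimpleGraph (Fin n), (∀ K : Finset (Fin n), G.IsClique K →
          (K.card : ℝ) < k / ρ k) → ¬ P.Accepts G))) :=
  ⟨fun k h l h3 hk hl => Pool.Agent.H84.SP.bound_large k h l h3 hk hl,
    fun k h h3 hk => Pool.Agent.H84.SP.bound_odd k h h3 hk,
    fun k h h3 hk => Pool.Agent.H84.SP.bound_all k h h3 hk,
    fun ρ h1 h2 f c => Pool.Agent.H84.SP.no_ratio2 ρ h1 h2 f c⟩

end Pool.Agent.Results.MP_1fcf49_lc.SpanPrograms
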